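import Pool.Agent.Y78.KS.Main

set_option autoImplicit false

namespace Pool.Agent.Results.MP_0568c2_al.AllLifts

open Pool.Agent.Y78.KS

/-- For every finite solvable group `Γ` and every maximal subgroup `H`, the differences
`d(G) - d(M)` over all finite solvable lifts `G → Γ`, `M` the preimage of `H`, are exactly
`0, 1, ..., d(Γ / Core H)`; in particular `k* = ∞`. -/
theorem result :
    (∀ (Γ : Type) [Group Γ] [Finite Γ] [Group.IsSolvable Γ] (H : Subgroup Γ), IsCoatom H →
      liftGaps Γ H = Set.Iic (derivedLength (Γ ⧸ H.normalCore))) ∧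
    kStar = ⊤ :=
  ⟨fun Γ _ _ _ H hH => liftGaps_eq Γ H hH, kStar_top⟩

end Pool.Agent.Results.MP_0568c2_al.AllLifts
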